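import Pool.Agent.H.MP_26d9d0_an.A

set_option autoImplicit false
open Filter Topology Set

namespace Pool.Agent.Results.MP_26d9d0_an.NotClosed

def B {n : ℕ} (δ : EuclideanSpace ℂ (Fin n) → ℝ) (N : ℕ) (C : ℝ) :
    Set (EuclideanSpace ℂ (Fin n) → ℂ) :=
  {u | DifferentiableOn ℂ u {z | 0 < δ z} ∧ ∀ z, 0 < δ z → δ z ^ N * ‖u z‖ ≤ C}

def O {n : ℕ} (δ : EuclideanSpace ℂ (Fin n) → ℝ) : Set (EuclideanSpace ℂ (Fin n) → ℂ) :=
  {u | ∃ (N : ℕ) (C : ℝ), u ∈ B δ N C}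

open Pool.Agent.H.MP_26d9d0_an in
theorem result : ∃ δ δ' : EuclideanSpace ℂ (Fin 2) → ℝ,
    (∀ z, 0 ≤ δ' z ∧ δ' z ≤ δ z) ∧ LipschitzWith 1 δ ∧ LipschitzWith 1 δ' ∧
    Tendsto δ (cocompact _) (𝓝 0) ∧ Tendsto δ' (cocompact _) (𝓝 0) ∧ (∀ z, ‖z‖ * δ z ≤ 1) ∧
    ∃ u ∈ O δ',
      (∀ U : Set (EuclideanSpace ℂ (Fin 2) → ℂ), Convex ℝ U →
        (∀ N : ℕ, ∃ ε > 0, B δ' N ε ⊆ U) → ∃ r ∈ O δ, r - u ∈ U) ∧
      ¬ ∃ (N : ℕ) (r : ℕ → EuclideanSpace ℂ (Fin 2) → ℂ), (∀ k, r k ∈ O δ) ∧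
        ∀ ε > 0, ∀ᶠ k in atTop, r k - u ∈ B δ' N ε := by
  have de : Differentiable ℂ fun z : V => Complex.exp (z 1) := by fun_prop
  have sm : ∀ c ε : ℝ, 0 < ε → ∃ k : ℕ, c * (1 / 2) ^ k ≤ ε := fun c ε h => by
    have := (tendsto_pow_atTop_nhds_zero_of_lt_one (r := (1 / 2 : ℝ)) (by norm_num)
      (by norm_num)).const_mul c
    rw [mul_zero] at this
    exact (this.eventually_le_const h).exists
  refine ⟨δ, δ', fun z => ⟨δ0 z, δle z⟩, δL, δL', δt, squeeze_zero δ0 δle δt, fun z => ?_,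
    fun z => χ z * Complex.exp (z 1), ⟨0, 3, dχ.mul de.differentiableOn, fun z hz => ?_⟩,
    fun U hU hB => ?_, ?_⟩
  · rw [δ, ← div_eq_mul_inv, div_le_one (by positivity)]; linarith
  · have := Tχ 0 z hz
    simp only [T, Finset.range_zero, Finset.sum_empty, mul_zero, zero_sub, norm_neg] at this
    linarith
  · obtain ⟨a, a0, ha⟩ := hB 0
    obtain ⟨k, hk⟩ := sm 4 a a0
    obtain ⟨N, C, hC⟩ := Gδ (GT k)
    obtain ⟨b, b0, hb⟩ := hB N
    obtain ⟨m, hm⟩ := sm (2 * C) b b0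
    have g := Gm (GQ m) (GT k)
    obtain ⟨M, D, hD⟩ := Gδ g
    refine ⟨_, ⟨M, D, g.1.differentiableOn, fun z _ => hD z⟩, ?_⟩
    have h1 : (fun z : V => 2 * (χ z * T k (z 1) - χ z * Complex.exp (z 1))) ∈ U :=
      ha ⟨((dχ.mul (GT k).1.differentiableOn).sub (dχ.mul de.differentiableOn)).const_mul 2,
        fun z hz => by rw [norm_mul, Complex.norm_two]; linarith [Tχ k z hz]⟩
    have h2 : (fun z : V => 2 * ((Q^[m] (z 0) - χ z) * T k (z 1))) ∈ U :=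
      hb ⟨(((GQ m).1.differentiableOn.sub dχ).mul (GT k).1.differentiableOn).const_mul 2,
        fun z hz => by
          rw [norm_mul, norm_mul, Complex.norm_two]
          have c := (mul_le_mul_of_nonneg_right (pow_le_pow_left₀ hz.le (δle z) N)
            (norm_nonneg (T k (z 1)))).trans (hC z)
          have := mul_le_mul (Qχ m z hz) c (by positivity) (by positivity)
          linarith⟩
    have := hU h1 h2 (a := 1 / 2) (b := 1 / 2) (by norm_num) (by norm_num) (by norm_num)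
    convert this using 1
    ext z; simp; ring
  · rintro ⟨N, r, h1, h2⟩
    refine no N r (fun k => ?_) fun ε h => (h2 ε h).mono fun k hk => hk.2
    obtain ⟨_, _, h, -⟩ := h1 k
    exact fun z => h.differentiableAt (Eventually.of_forall δp)

end Pool.Agent.Results.MP_26d9d0_an.NotClosed
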